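import Mathlib

set_option autoImplicit false
open Finset Module

namespace Pool.Agent.P.MP_dc0ef5_nt

variable {K L : Type*} [Field K] [Fintype K] [Field L] [Algebra K L]

/-- a product of few affine functions sums to zero over the whole space -/
theorem sum_prod_affine {V : Type*} [AddCommGroup V] [Module K V] [Fintype V] {ι : Type*}
    (s : Finset ι) (f : ι → V →ₗ[K] K) (c : ι → K)
    (h : s.card < (Fintype.card K - 1) * finrank K V) :
    ∑ y : V, ∏ i ∈ s, (f i y + c i) = 0 := by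
  classical
  let b := Module.finBasis K V
  let P : ι → MvPolynomial (Fin (finrank K V)) K := fun i =>
    ∑ j, MvPolynomial.C (f i (b j)) * MvPolynomial.X j + MvPolynomial.C (c i)
  have hP : ∀ i, (P i).totalDegree ≤ 1 := fun i => by
    refine (MvPolynomial.totalDegree_add _ _).trans (max_le ?_ (by simp))
    refine (MvPolynomial.totalDegree_finsetSum _ _).trans (Finset.sup_le fun j _ => ?_)
    refine (MvPolynomial.totalDegree_mul _ _).trans ?_
    simp
  have h1 := MvPolynomial.sum_eval_eq_zero (∏ i ∈ s, P i) (by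
    refine lt_of_le_of_lt (MvPolynomial.totalDegree_finsetProd _ _) ?_
    refine lt_of_le_of_lt (Finset.sum_le_sum fun i _ => hP i) ?_
    simpa using h)
  rw [← h1]
  symm
  refine Fintype.sum_equiv b.equivFun.symm.toEquiv _ _ fun x => ?_
  simp only [map_prod]
  refine Finset.prod_congr rfl fun i _ => ?_
  simp [P, Basis.equivFun_symm_apply, mul_comm]

omit [Fintype K] in
theorem finrank_ker_pair [FiniteDimensional K L] (φ : L →ₗ[K] K) (hφ : φ ≠ 0) {β : L}
    (hβ : β ∉ Set.range (algebraMap K L)) :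
    finrank K (LinearMap.ker (φ.prod (φ ∘ₗ LinearMap.mulRight K β))) + 2 = finrank K L := by
  set T := φ.prod (φ ∘ₗ LinearMap.mulRight K β)
  have hr : LinearMap.range T = ⊤ := by
    by_contra hne
    obtain ⟨f, hf, hle⟩ := Submodule.exists_le_ker_of_lt_top _ (lt_top_iff_ne_top.2 hne)
    have hf' : ∀ u v : K, f (u, v) = u * f (1, 0) + v * f (0, 1) := fun u v => by
      rw [show ((u, v) : K × K) = u • (1, 0) + v • (0, 1) by simp, map_add, map_smul, map_smul]
      rfl
    set a := f (1, 0)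
    set b := f (0, 1)
    have h0 : ∀ y, φ (y * (algebraMap K L a + algebraMap K L b * β)) = 0 := fun y => by
      have := hle (LinearMap.mem_range_self T y)
      rw [LinearMap.mem_ker] at this
      have e : T y = (φ y, φ (y * β)) := rfl
      rw [e, hf'] at this
      rw [show y * (algebraMap K L a + algebraMap K L b * β) = a • y + b • (y * β) by
        simp only [Algebra.smul_def]; ring, map_add, map_smul, map_smul, ← this]
      simp only [smul_eq_mul]; ring
    have h1 : algebraMap K L a + algebraMap K L b * β = 0 := by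
      by_contra h
      apply hφ
      ext y
      simpa [h] using h0 (y * (algebraMap K L a + algebraMap K L b * β)⁻¹)
    have hb : b = 0 := by
      by_contra hb
      apply hβ
      refine ⟨-a / b, ?_⟩
      have : algebraMap K L b ≠ 0 := by simpa using hb
      rw [map_div₀, map_neg, div_eq_iff this]
      linear_combination -h1
    have ha : a = 0 := by simpa [hb] using h1
    apply hf
    refine LinearMap.ext fun p => ?_
    rw [show p = (p.1, p.2) from rfl, hf', ha, hb]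
    simp
  have := LinearMap.finrank_range_add_finrank_ker T
  rw [hr] at this
  simp at this
  omega

/-- a longest run -/
theorem exists_max_run (Q : L → ℕ → Prop) (n : ℕ)
    (h : ¬ ∃ y : L, y ≠ 0 ∧ ∀ i, 1 ≤ i → i ≤ n → Q y i) :
    ∃ m < n, (∃ y : L, y ≠ 0 ∧ ∀ i, 1 ≤ i → i ≤ m → Q y i) ∧
      ¬ ∃ y : L, y ≠ 0 ∧ ∀ i, 1 ≤ i → i ≤ m + 1 → Q y i := by
  induction n with
  | zero => exact absurd ⟨1, one_ne_zero, fun i h1 h2 => by omega⟩ h
  | succ n ih =>
    by_cases h' : ∃ y : L, y ≠ 0 ∧ ∀ i, 1 ≤ i → i ≤ n → Q y i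
    · exact ⟨n, Nat.lt_succ_self n, h', h⟩
    · obtain ⟨m, hm, h1⟩ := ih h'
      exact ⟨m, by omega, h1⟩

omit [Fintype K] in
/-- both ends of a longest run -/
theorem ends (φ : L →ₗ[K] K) (c : K) {γ : L} (hγ : γ ≠ 0) {m : ℕ}
    (h : ¬ ∃ y : L, y ≠ 0 ∧ ∀ i, 1 ≤ i → i ≤ m + 1 → φ (y * γ ^ i) ≠ c) {y : L} (hy : y ≠ 0)
    (h1 : ∀ i, 1 ≤ i → i ≤ m → φ (y * γ ^ i) ≠ c) : φ y = c ∧ φ (y * γ ^ (m + 1)) = c := by
  constructor
  · by_contra h2
    refine h ⟨y * γ⁻¹, by simp [hy, hγ], fun i hi hi' => ?_⟩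
    obtain ⟨j, rfl⟩ : ∃ j, i = j + 1 := ⟨i - 1, by omega⟩
    rw [show y * γ⁻¹ * γ ^ (j + 1) = y * γ ^ j by rw [pow_succ']; field_simp]
    rcases Nat.eq_zero_or_pos j with rfl | hj
    · simpa using h2
    · exact h1 j hj (by omega)
  · by_contra h2
    refine h ⟨y, hy, fun i hi hi' => ?_⟩
    rcases hi'.lt_or_eq with h3 | rfl
    · exact h1 i hi (by omega)
    · exact h2

theorem singer_core (h3 : finrank K L = 3) (φ : L →ₗ[K] K) (hφ : φ ≠ 0) {γ : L} (hγ : γ ≠ 0)
    (hk : ∀ k, 0 < k → k < 2 * Fintype.card K → γ ^ k ∉ Set.range (algebraMap K L)) :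
    ∃ y : L, y ≠ 0 ∧ ∀ i, 1 ≤ i → i ≤ 2 * Fintype.card K - 1 → φ (y * γ ^ i) ≠ 0 := by
  classical
  have : FiniteDimensional K L := Module.finite_of_finrank_pos (by omega)
  have : Finite L := Module.finite_of_finite K
  have := Fintype.ofFinite L
  have hq : 1 < Fintype.card K := Fintype.one_lt_card
  by_contra hcon
  obtain ⟨m, hm, ⟨y0, hy0, h0⟩, hmax⟩ := exists_max_run _ _ hcon
  have hker := finrank_ker_pair φ hφ (hk (m + 1) (by omega) (by omega))
  rw [h3] at hker
  set U := LinearMap.ker (φ.prod (φ ∘ₗ LinearMap.mulRight K (γ ^ (m + 1))))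
  have hU : ∀ y, y ≠ 0 → (∀ i, 1 ≤ i → i ≤ m → φ (y * γ ^ i) ≠ 0) → y ∈ U := fun y hy h => by
    obtain ⟨e1, e2⟩ := ends φ 0 hγ hmax hy h
    exact Prod.ext e1 e2
  have hspan : ∀ y ∈ U, ∃ c : K, c • y0 = y := by
    have h1 : finrank K U = 1 := by omega
    rw [finrank_eq_one_iff_of_nonzero' (⟨y0, hU y0 hy0 h0⟩ : U) (by simpa using hy0)] at h1
    intro y hy
    obtain ⟨c, hc⟩ := h1 ⟨y, hy⟩
    exact ⟨c, congrArg Subtype.val hc⟩
  obtain ⟨ψ, hψ⟩ : ∃ ψ : L →ₗ[K] K, ψ y0 ≠ 0 := Module.Projective.exists_dual_ne_zero K hy0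
  let f : ℕ → L →ₗ[K] K := fun i => if i ≤ m then φ ∘ₗ LinearMap.mulRight K (γ ^ i) else ψ
  have hs := sum_prod_affine (Icc 1 (2 * (Fintype.card K - 1))) f (fun _ => 0) (by
    rw [h3]; simp; omega)
  simp only [add_zero] at hs
  set G : L → K := fun y => ∏ i ∈ Icc 1 (2 * (Fintype.card K - 1)), f i y with hG
  have hG0 : G y0 ≠ 0 := Finset.prod_ne_zero_iff.2 fun i hi => by
    simp only [f]
    split_ifs with h
    · exact h0 i (mem_Icc.1 hi).1 h
    · exact hψ
  have hGc : ∀ c : K, G (c • y0) = c ^ (2 * (Fintype.card K - 1)) * G y0 := fun c => by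
    simp [hG, Finset.prod_mul_distrib]
  have hsupp : ∀ y, G y ≠ 0 → y ∈ univ.image fun c : K => c • y0 := fun y hy => by
    by_cases hz : y = 0
    · exact mem_image.2 ⟨0, mem_univ _, by simp [hz]⟩
    obtain ⟨c, hc⟩ := hspan y (hU y hz fun i h1 h2 => by
      have := Finset.prod_ne_zero_iff.1 hy i (mem_Icc.2 ⟨h1, by omega⟩)
      simpa [f, h2] using this)
    exact mem_image.2 ⟨c, mem_univ _, hc⟩
  have e1 : ∑ y, G y = ∑ c : K, G (c • y0) := by
    rw [← Finset.sum_image (f := G) (g := fun c : K => c • y0)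
      (fun a _ b _ h => smul_left_injective K hy0 h)]
    exact (Finset.sum_subset (subset_univ _) fun y _ hy => by
      by_contra h; exact hy (hsupp y h)).symm
  have e2 : ∑ c : K, c ^ (2 * (Fintype.card K - 1)) = -1 := by
    rw [← FiniteField.sum_pow_units K (2 * (Fintype.card K - 1)) |>.trans (if_pos (Dvd.intro_left 2 rfl))]
    rw [← Finset.sum_erase_add _ _ (mem_univ (0 : K)), zero_pow (by omega), add_zero]
    symm
    refine Finset.sum_bij (fun u _ => (u : K)) (by simp) (fun a _ b _ h => Units.ext h)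
      (fun b hb => ⟨Units.mk0 b (by simpa using hb), by simp⟩) (by simp)
  rw [e1] at hs
  simp only [hGc, ← Finset.sum_mul, e2] at hs
  exact hG0 (by simpa using hs)

theorem bose_core (h2 : finrank K L = 2) (φ : L →ₗ[K] K) (hφ : φ ≠ 0) {γ : L} (hγ : γ ≠ 0)
    (hk : ∀ k, 0 < k → k < 2 * Fintype.card K - 2 → γ ^ k ≠ 1) :
    ∃ y : L, y ≠ 0 ∧ ∀ i, 1 ≤ i → i ≤ 2 * Fintype.card K - 3 → φ (y * γ ^ i) ≠ 1 := by
  classical
  have : FiniteDimensional K L := Module.finite_of_finrank_pos (by omega)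
  have : Finite L := Module.finite_of_finite K
  have := Fintype.ofFinite L
  have hq : 1 < Fintype.card K := Fintype.one_lt_card
  by_contra hcon
  obtain ⟨m, hm, ⟨y0, hy0, h0⟩, hmax⟩ := exists_max_run _ _ hcon
  obtain ⟨a1, a2⟩ := ends φ 1 hγ hmax hy0 h0
  have hβ : γ ^ (m + 1) ∉ Set.range (algebraMap K L) := by
    rintro ⟨c, hc⟩
    rw [← hc, mul_comm, ← Algebra.smul_def, map_smul, a1, smul_eq_mul, mul_one] at a2
    rw [a2, map_one] at hc
    exact hk (m + 1) (by omega) (by omega) hc.symm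
  have hker := finrank_ker_pair φ hφ hβ
  rw [h2] at hker
  have hU : LinearMap.ker (φ.prod (φ ∘ₗ LinearMap.mulRight K (γ ^ (m + 1)))) = ⊥ :=
    Submodule.finrank_eq_zero.1 (by omega)
  have huniq : ∀ y, y ≠ 0 → (∀ i, 1 ≤ i → i ≤ m → φ (y * γ ^ i) ≠ 1) → y = y0 := fun y hy h => by
    obtain ⟨e1, e2⟩ := ends φ 1 hγ hmax hy h
    refine LinearMap.ker_eq_bot.1 hU (Prod.ext ?_ ?_)
    · exact e1.trans a1.symm
    · exact e2.trans a2.symm
  let f : ℕ → L →ₗ[K] K := fun i => φ ∘ₗ LinearMap.mulRight K (γ ^ i)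
  have hs := sum_prod_affine (range (m + 1)) f (fun i => if i = 0 then 0 else -1) (by
    rw [h2]; simp; omega)
  rw [Finset.sum_eq_single y0] at hs
  · obtain ⟨i, hi, h⟩ := Finset.prod_eq_zero_iff.1 hs
    rcases Nat.eq_zero_or_pos i with rfl | hi0
    · simp [f, a1] at h
    · refine h0 i hi0 (by simpa [Nat.lt_succ_iff] using hi) ?_
      simp only [f, hi0.ne', if_false, LinearMap.comp_apply, LinearMap.mulRight_apply] at h
      linear_combination h
  · intro y _ hy
    by_contra h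
    have h1 := Finset.prod_ne_zero_iff.1 h
    by_cases hz : y = 0
    · exact h1 0 (by simp) (by simp [hz])
    refine hy (huniq y hz fun i hi hi' e => h1 i (by simpa [Nat.lt_succ_iff] using hi') ?_)
    simp [f, e, show i ≠ 0 by omega]
  · simp

end Pool.Agent.P.MP_dc0ef5_nt
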