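import Pool.Agent.P.MP_dc0ef5_nt.Core

set_option autoImplicit false
open Module

namespace Pool.Agent.P.MP_dc0ef5_nt.Gaps

/-- largest modular gap: the largest, over `a ∈ A`, of the cyclic distance from `a` to the next
element of `A` -/
noncomputable def gap {M : ℕ} (A : Set (ZMod M)) : ℕ :=
  sSup ((fun a => sInf {j : ℕ | 0 < j ∧ a + (j : ZMod M) ∈ A}) '' A)

/-- the Bose set of a generator `θ` of the multiplicative group of `L`, `[L : K] = 2` -/
def bose (K : Type) {L : Type} [Field K] [Fintype K] [Field L] [Algebra K L] (θ : L) :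
    Set (ZMod (Fintype.card K ^ 2 - 1)) :=
  {a | ∃ v : K, θ ^ a.val = θ + algebraMap K L v}

/-- the Singer set of a generator `η` of the multiplicative group of `L`, `[L : K] = 3` -/
def singer (K : Type) {L : Type} [Field K] [Fintype K] [Field L] [Algebra K L] (η : L) :
    Set (ZMod (Fintype.card K ^ 2 + Fintype.card K + 1)) :=
  {a | ∃ u v : K, η ^ a.val = algebraMap K L u * η + algebraMap K L v}

theorem le_gap {M : ℕ} [NeZero M] {A : Set (ZMod M)} (hA : A.Nonempty) (x : ZMod M) (m : ℕ)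
    (h : ∀ i, 1 ≤ i → i ≤ m → x + (i : ℕ) ∉ A) : m + 1 ≤ gap A := by
  classical
  have hex : ∃ k : ℕ, x - k ∈ A := by
    obtain ⟨a, ha⟩ := hA
    exact ⟨(x - a).val, by simpa using ha⟩
  set k := Nat.find hex
  have hk : x - k ∈ A := Nat.find_spec hex
  refine le_trans ?_ (le_csSup (A.toFinite.image _).bddAbove ⟨x - k, hk, rfl⟩)
  refine le_csInf ⟨M, Nat.pos_of_ne_zero (NeZero.ne M), by simpa using hk⟩ ?_
  rintro j ⟨hj, hjA⟩
  by_contra hlt
  rcases le_or_gt j k with h1 | h1
  · refine Nat.find_min hex (show k - j < k by omega) ?_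
    rw [Nat.cast_sub h1]
    convert hjA using 1
    ring
  · refine h (j - k) (by omega) (by omega) ?_
    rw [Nat.cast_sub h1.le]
    convert hjA using 1
    ring

/-- reduction of the affine image to windows of a geometric progression -/
theorem le_gap_affine {M : ℕ} [NeZero M] {A : Set (ZMod M)} (hA : A.Nonempty) {d e : ZMod M}
    (hde : e * d = 1) (s n : ZMod M) (m : ℕ)
    (h : ∀ i, 1 ≤ i → i ≤ m → n + e * (i : ℕ) ∉ A) :
    m + 1 ≤ gap ((fun a => d * a + s) '' A) := by
  refine le_gap (hA.image _) (s + d * n) m fun i h1 h2 ⟨a, ha, e1⟩ => h i h1 h2 ?_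
  have : a = n + e * i := by
    simp only at e1
    linear_combination e * e1 - (a - n) * hde
  rwa [← this]

variable {K L : Type} [Field K] [Fintype K] [Field L] [Algebra K L]

theorem order_eq {n : ℕ} (hn : finrank K L = n + 1) (η : Lˣ) (hη : ∀ x, x ∈ Subgroup.zpowers η) :
    orderOf η = Fintype.card K ^ (n + 1) - 1 := by
  have : FiniteDimensional K L := Module.finite_of_finrank_pos (by omega)
  have : Finite L := Module.finite_of_finite K
  rw [orderOf_eq_card_of_forall_mem_zpowers hη, Nat.card_units, Module.natCard_eq_pow_finrank (K := K),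
    hn, Nat.card_eq_fintype_card]

theorem exists_pow {n : ℕ} (hn : finrank K L = n + 1) (η : Lˣ) (hη : ∀ x, x ∈ Subgroup.zpowers η)
    {y : L} (hy : y ≠ 0) : ∃ k : ℕ, (η : L) ^ k = y := by
  have : FiniteDimensional K L := Module.finite_of_finrank_pos (by omega)
  have : Finite L := Module.finite_of_finite K
  obtain ⟨k, hk⟩ := (mem_powers_iff_mem_zpowers.2 (hη (Units.mk0 y hy)))
  exact ⟨k, by simpa using congrArg Units.val hk⟩

theorem dvd_of_mem {n : ℕ} (hn : finrank K L = n + 1) (η : Lˣ) (hη : ∀ x, x ∈ Subgroup.zpowers η)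
    {k : ℕ} (h : (η : L) ^ k ∈ Set.range (algebraMap K L)) :
    Fintype.card K ^ (n + 1) - 1 ∣ k * (Fintype.card K - 1) := by
  obtain ⟨c, hc⟩ := h
  have hc0 : c ≠ 0 := by
    rintro rfl
    exact pow_ne_zero k η.ne_zero (by simpa using hc.symm)
  rw [← order_eq hn η hη, orderOf_dvd_iff_pow_eq_one]
  ext
  rw [Units.val_pow_eq_pow_val, pow_mul, ← hc, ← map_pow, FiniteField.pow_card_sub_one_eq_one c hc0]
  simp

theorem bose_gap (h2 : finrank K L = 2) (θ : Lˣ) (hθ : ∀ x, x ∈ Subgroup.zpowers θ) (d : ℕ)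
    (hd : d.Coprime (Fintype.card K ^ 2 - 1)) (s : ZMod (Fintype.card K ^ 2 - 1)) :
    2 * Fintype.card K - 2 ≤ gap ((fun a => (d : ZMod _) * a + s) '' bose K (θ : L)) := by
  have hq : 1 < Fintype.card K := Fintype.one_lt_card
  have hord := order_eq h2 θ hθ
  have hdvd := fun k => dvd_of_mem (k := k) h2 θ hθ
  revert s
  set q := Fintype.card K with hqdef
  intro s
  obtain ⟨r, hr⟩ : ∃ r, q = r + 2 := ⟨q - 2, by omega⟩
  have hM : q ^ 2 - 1 = r * r + 4 * r + 3 := by rw [hr]; apply Nat.sub_eq_of_eq_add; ring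
  have : NeZero (q ^ 2 - 1) := ⟨by omega⟩
  have : Fact (1 < q ^ 2 - 1) := ⟨by omega⟩
  have hθK : (θ : L) ∉ Submodule.span K {(1 : L)} := by
    intro h
    obtain ⟨c, hc⟩ := Submodule.mem_span_singleton.1 h
    have := Nat.le_of_dvd (by omega) (hdvd 1 ⟨c, by simpa [Algebra.smul_def] using hc⟩)
    norm_num at this
    omega
  obtain ⟨φ, h1, h3⟩ := LinearMap.exists_extend_of_notMem (0 : _ →ₗ[K] K) hθK 1
  have hφ1 : φ 1 = 0 := congrArg (fun f => f ⟨1, Submodule.mem_span_singleton_self _⟩) h1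
  have hmod : ∀ a b : ℕ, (a : ZMod (q ^ 2 - 1)) = b → (θ : L) ^ a = (θ : L) ^ b := fun a b h => by
    have : θ ^ a = θ ^ b := by
      rw [pow_eq_pow_iff_modEq, hord]; exact (ZMod.natCast_eq_natCast_iff _ _ _).1 h
    simpa using congrArg Units.val this
  set e : ZMod (q ^ 2 - 1) := (d : ZMod (q ^ 2 - 1))⁻¹
  have hde : e * d = 1 := by rw [mul_comm]; exact ZMod.coe_mul_inv_eq_one d hd
  obtain ⟨y, hy, hw⟩ := Pool.Agent.P.MP_dc0ef5_nt.bose_core h2 φ
    (fun h => by simp [h] at h3) (γ := (θ : L) ^ e.val) (pow_ne_zero _ θ.ne_zero) (by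
      intro k hk hk' h
      have h4 : θ ^ (e.val * k) = 1 := by ext; simpa [pow_mul] using h
      rw [← orderOf_dvd_iff_pow_eq_one, hord, ← ZMod.natCast_eq_zero_iff] at h4
      push_cast at h4
      rw [ZMod.natCast_zmod_val] at h4
      have h5 : (k : ZMod (q ^ 2 - 1)) = 0 := by linear_combination d * h4 - k * hde
      have := Nat.le_of_dvd hk ((ZMod.natCast_eq_zero_iff _ _).1 h5)
      omega)
  obtain ⟨n, rfl⟩ := exists_pow h2 θ hθ hy
  have := le_gap_affine (A := bose K (θ : L)) ⟨1, 0, by simp [ZMod.val_one]⟩ hde s n (2 * q - 3)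
    fun i i1 i2 ⟨v, hv⟩ => hw i i1 i2 (by
      rw [← pow_mul, ← pow_add, ← hmod ((n : ZMod (q ^ 2 - 1)) + e * i).val _ (by simp), hv,
        map_add, h3, Algebra.algebraMap_eq_smul_one, map_smul, hφ1]
      simp)
  omega

theorem singer_gap (h3 : finrank K L = 3) (η : Lˣ) (hη : ∀ x, x ∈ Subgroup.zpowers η) (d : ℕ)
    (hd : d.Coprime (Fintype.card K ^ 2 + Fintype.card K + 1))
    (s : ZMod (Fintype.card K ^ 2 + Fintype.card K + 1)) :
    2 * Fintype.card K ≤ gap ((fun a => (d : ZMod _) * a + s) '' singer K (η : L)) := by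
  have : FiniteDimensional K L := Module.finite_of_finrank_pos (by omega)
  have : Finite L := Module.finite_of_finite K
  have hq : 1 < Fintype.card K := Fintype.one_lt_card
  have hdvd := fun k => dvd_of_mem (k := k) h3 η hη
  have hnorm := FiniteField.algebraMap_norm_eq_pow_sum K L (η : L)
  rw [h3, Nat.card_eq_fintype_card] at hnorm
  revert s
  set q := Fintype.card K with hqdef
  intro s
  have hN : ∑ i ∈ Finset.range 3, q ^ i = q ^ 2 + q + 1 := by simp [Finset.sum_range_succ]; ring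
  rw [hN] at hnorm
  have hfac : q ^ (2 + 1) - 1 = (q ^ 2 + q + 1) * (q - 1) := by
    obtain ⟨r, hr⟩ : ∃ r, q = r + 1 := ⟨q - 1, by omega⟩
    rw [hr]; apply Nat.sub_eq_of_eq_add; simp; ring
  have : NeZero (q ^ 2 + q + 1) := ⟨by omega⟩
  have hlt : Submodule.span K ({1, (η : L)} : Set L) < ⊤ := by
    classical
    refine Submodule.lt_top_of_finrank_lt_finrank ?_
    refine lt_of_le_of_lt (finrank_span_le_card _) ?_
    rw [h3]
    simpa using Nat.lt_succ_of_le (Finset.card_le_two (a := (1 : L)) (b := (η : L)))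
  obtain ⟨φ, hφ, hle⟩ := Submodule.exists_le_ker_of_lt_top _ hlt
  have hφ1 : φ 1 = 0 := hle (Submodule.subset_span (by simp))
  have hφ2 : φ η = 0 := hle (Submodule.subset_span (by simp))
  have hmod : ∀ a : ℕ, φ ((η : L) ^ (a % (q ^ 2 + q + 1))) = 0 → φ ((η : L) ^ a) = 0 :=
    fun a h => by
      rw [← Nat.div_add_mod a (q ^ 2 + q + 1), pow_add, pow_mul, ← hnorm, ← map_pow,
        ← Algebra.smul_def, map_smul, h, smul_zero]
  set e : ZMod (q ^ 2 + q + 1) := (d : ZMod (q ^ 2 + q + 1))⁻¹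
  have hde : e * d = 1 := by rw [mul_comm]; exact ZMod.coe_mul_inv_eq_one d hd
  obtain ⟨y, hy, hw⟩ := Pool.Agent.P.MP_dc0ef5_nt.singer_core h3 φ hφ
    (γ := (η : L) ^ e.val) (pow_ne_zero _ η.ne_zero) (by
      intro k hk hk' h
      rw [← pow_mul] at h
      have h4 := hdvd _ h
      rw [hfac, Nat.mul_dvd_mul_iff_right (by omega), ← ZMod.natCast_eq_zero_iff] at h4
      push_cast at h4
      rw [ZMod.natCast_zmod_val] at h4
      have h5 : (k : ZMod (q ^ 2 + q + 1)) = 0 := by linear_combination d * h4 - k * hde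
      have := Nat.le_of_dvd hk ((ZMod.natCast_eq_zero_iff _ _).1 h5)
      nlinarith)
  obtain ⟨n, rfl⟩ := exists_pow h3 η hη hy
  have := le_gap_affine (A := singer K (η : L)) ⟨0, 0, 1, by simp⟩ hde s n (2 * q - 1)
    fun i i1 i2 ⟨u, v, hv⟩ => hw i i1 i2 (by
      rw [← pow_mul, ← pow_add]
      apply hmod
      rw [← ZMod.val_natCast]
      push_cast
      rw [ZMod.natCast_zmod_val, hv, map_add, ← Algebra.smul_def, map_smul, hφ2,
        Algebra.algebraMap_eq_smul_one, map_smul, hφ1]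
      simp)
  omega

end Pool.Agent.P.MP_dc0ef5_nt.Gaps
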